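import Mathlib
import Pool.Agent.Lib.MP_9a9339_an.Ex.Existence

set_option autoImplicit false

open Pool.Agent.Lib.MP_9a9339_an

namespace Pool.Agent.Results.MP_9a9339_an.ExactlyOne

/-- **Existence and uniqueness for positive reactions on strongly exterior-star domains.**
For every dimension `d ≥ 1`, every `γ ∈ (0,1]`, every strongly exterior-star domain `Ω ⊆ ℝ^d`
(nonempty, open, connected, uniformly of class `C^{2,γ}`) and every positive reaction `f`, the
problem `-Δ u = f(u)` in `Ω`, `u = 0` on the boundary, has exactly one positive bounded solution: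
there is one, and every other one coincides with it on the closure of `Ω` (values off the closure
of `Ω` are irrelevant). No condition is imposed on `Ω` far away. -/
theorem result {d : ℕ} (_hd : 1 ≤ d) {γ : ℝ} (hγ : 0 < γ) (_hγ1 : γ ≤ 1) {Ω : Set (E d)}
    (hΩ : IsUniformDomain γ Ω) (hstar : StronglyExteriorStar Ω) {f : ℝ → ℝ}
    (hf : IsPositiveReaction γ f) :
    ∃ u : E d → ℝ, IsPositiveBoundedSolution Ω f u ∧
      ∀ v : E d → ℝ, IsPositiveBoundedSolution Ω f v → ∀ x ∈ closure Ω, v x = u x :=
  exactly_one hγ hΩ hstar hf

end Pool.Agent.Results.MP_9a9339_an.ExactlyOne
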